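import Pool.Agent.Helper60.QL.Defs
import Pool.Agent.Helper92.GC.T1
import Pool.Agent.Helper92.GC.Q2
import Pool.Agent.Helper78.CG.Main

/-!
# QL-M6 (helper79): the sixth moment of a sector

PROOF. `int_fr` (LT/D1); for fixed `θ, x, y` the phase is `T u q(t)`, `u = k.1 = uu 0 k`, `t = tt 0 k`, `q(t) = √((1 + xt)² + y²t²)`, `|t| ≤ 2`, `q'' = y²/(..)^(3/2)` between `c(B)` and `C(B)`: `Crv6 c C₀ 2 q`. `∫_(T ~ X) m6 dT ≤ C X n6 (mu v) (gs A 1 (ff 0 q)) ^ 3` with weights `IsWt X v`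
(finitely many intervals of length `X`), and `n6 ^ 3 ≤ C H^ε #A P(A)²` exactly as `six` in LT/E1 (there for `fy p y`; `dec6` of CG/Main, sectors of width `(H X)^(-1/2)`; members of one sector have `|dd| ≤ C H²/√(H X)`).
-/

open MeasureTheory Real Set Filter Topology

set_option autoImplicit false

namespace Pool.Agent.Helper60.QL

open Pool.Agent.Helper22.AE
open Pool.Agent.Helper92.GC (dt tp Tq uu tt arc gs dd m6)
open Pool.Agent.Helper22.AC (n6 IsWt mu)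
open Pool.Agent.Helper60.LT (Fr Tf xf yf df vf fr)
open Pool.Agent.Helper78.CG (Crv6)

open Classical in
/-- pairs with small determinant -/
private noncomputable def q6P (S : Finset (ℤ × ℤ)) (D : ℝ) : Finset ((ℤ × ℤ) × (ℤ × ℤ)) :=
  (S ×ˢ S).filter (fun z => |((dd z.1 z.2 : ℤ) : ℝ)| ≤ D)

private theorem q6_cub {ι : Type} (s : Finset ι) (f g : ι → ℝ) (hf : ∀ i ∈ s, 0 ≤ f i) (hg : ∀ i ∈ s, 0 ≤ g i) :
    (∑ i ∈ s, f i ^ 2 * g i) ^ 3 ≤ (∑ i ∈ s, f i ^ 3) ^ 2 * ∑ i ∈ s, g i ^ 3 := by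
  have hpq : (3 / 2 : ℝ).HolderConjugate 3 := by
    rw [Real.holderConjugate_iff]
    norm_num
  have h1 := Real.inner_le_Lp_mul_Lq_of_nonneg s hpq (f := fun i => f i ^ 2) (g := g) (fun i hi => by positivity) hg
  have e1 : ∑ i ∈ s, (f i ^ 2) ^ (3 / 2 : ℝ) = ∑ i ∈ s, f i ^ 3 := by
    refine Finset.sum_congr rfl fun i hi => ?_
    rw [← rpow_natCast, ← rpow_mul (hf i hi), ← rpow_natCast]
    norm_num
  have e2 : ∑ i ∈ s, g i ^ (3 : ℝ) = ∑ i ∈ s, g i ^ 3 := by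
    refine Finset.sum_congr rfl fun i _ => ?_
    rw [← rpow_natCast]
    norm_num
  rw [e1, e2] at h1
  have hF : 0 ≤ ∑ i ∈ s, f i ^ 3 := Finset.sum_nonneg fun i hi => pow_nonneg (hf i hi) 3
  have hG : 0 ≤ ∑ i ∈ s, g i ^ 3 := Finset.sum_nonneg fun i hi => pow_nonneg (hg i hi) 3
  have h0 : 0 ≤ ∑ i ∈ s, f i ^ 2 * g i := Finset.sum_nonneg fun i hi => mul_nonneg (by positivity) (hg i hi)
  refine (pow_le_pow_left₀ h0 h1 3).trans (le_of_eq ?_)
  rw [mul_pow, ← rpow_natCast, ← rpow_mul hF, ← rpow_natCast, ← rpow_mul hG]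
  norm_num

private theorem q6_hold1 (N : ℕ) (x : ℕ → ℝ) (hx : ∀ i, 0 ≤ x i) :
    (∑ i ∈ Finset.range N, x i ^ (5 / 3 : ℝ)) ^ 3 ≤ (∑ i ∈ Finset.range N, x i ^ 2) ^ 2 * ∑ i ∈ Finset.range N, x i := by
  have h := q6_cub (Finset.range N) (fun i => x i ^ (2 / 3 : ℝ)) (fun i => x i ^ (1 / 3 : ℝ))
    (fun i _ => rpow_nonneg (hx i) _) (fun i _ => rpow_nonneg (hx i) _)
  have e1 : ∀ i ∈ Finset.range N, (x i ^ (2 / 3 : ℝ)) ^ 2 * x i ^ (1 / 3 : ℝ) = x i ^ (5 / 3 : ℝ) := by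
    intro i _
    rw [← rpow_natCast, ← rpow_mul (hx i), ← rpow_add_of_nonneg (hx i) (by norm_num) (by norm_num)]
    norm_num
  have e2 : ∀ i ∈ Finset.range N, (x i ^ (2 / 3 : ℝ)) ^ 3 = x i ^ 2 := by
    intro i _
    rw [← rpow_natCast, ← rpow_mul (hx i), ← rpow_natCast]
    norm_num
  have e3 : ∀ i ∈ Finset.range N, (x i ^ (1 / 3 : ℝ)) ^ 3 = x i := by
    intro i _
    rw [← rpow_natCast, ← rpow_mul (hx i)]
    norm_num
  rw [Finset.sum_congr rfl e1, Finset.sum_congr rfl e2, Finset.sum_congr rfl e3] at h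
  exact h

private theorem q6_arc_sub {β : ℝ} {S : Finset (ℤ × ℤ)} {N j : ℕ} : arc β S N j ⊆ S := by
  classical
  unfold arc
  exact Finset.filter_subset _ _

private theorem q6_dd {β U δ : ℝ} {k k' : ℤ × ℤ} (hk : 0 < uu β k) (hk' : 0 < uu β k') (hU : uu β k ≤ U) (hU' : uu β k' ≤ U)
    (ht : |tt β k' - tt β k| ≤ δ) : |((dd k k' : ℤ) : ℝ)| ≤ U ^ 2 * δ := by
  have e1 : (k.2 : ℝ) = tt β k * uu β k := by
    unfold tt
    rw [div_mul_cancel₀ _ hk.ne']
  have e1' : (k'.2 : ℝ) = tt β k' * uu β k' := by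
    unfold tt
    rw [div_mul_cancel₀ _ hk'.ne']
  have e2 : (k.1 : ℝ) = uu β k - β * k.2 := by
    unfold uu
    ring
  have e2' : (k'.1 : ℝ) = uu β k' - β * k'.2 := by
    unfold uu
    ring
  have e : ((dd k k' : ℤ) : ℝ) = uu β k * uu β k' * (tt β k' - tt β k) := by
    unfold dd
    push_cast
    rw [e2, e2']
    have : (uu β k - β * (k.2 : ℝ)) * (k'.2 : ℝ) - (k.2 : ℝ) * (uu β k' - β * (k'.2 : ℝ)) =
      uu β k * (k'.2 : ℝ) - (k.2 : ℝ) * uu β k' := by ring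
    rw [this, e1, e1']
    ring
  rw [e, abs_mul, abs_mul, abs_of_pos hk, abs_of_pos hk']
  have hU0 : 0 ≤ U := hk.le.trans hU
  have h1 : uu β k * uu β k' ≤ U * U := mul_le_mul hU hU' hk'.le hU0
  calc uu β k * uu β k' * |tt β k' - tt β k| ≤ (U * U) * δ := mul_le_mul h1 ht (abs_nonneg _) (by positivity)
    _ = _ := by ring

private theorem q6_arc {β : ℝ} {S : Finset (ℤ × ℤ)} {N j : ℕ} (hN : 1 ≤ N) (hS : ∀ k ∈ S, |tt β k| ≤ 5) {k k' : ℤ × ℤ}
    (hk : k ∈ arc β S N j) (hk' : k' ∈ arc β S N j) : |tt β k' - tt β k| ≤ 12 / N := by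
  classical
  unfold arc at hk hk'
  rw [Finset.mem_filter] at hk hk'
  have hN0 : (0 : ℝ) < N := by exact_mod_cast hN
  have a1 := (abs_le.1 (hS k hk.1)).1
  have a2 := (abs_le.1 (hS k' hk'.1)).1
  have f1 := (Nat.floor_eq_iff (by
    have : 0 ≤ (tt β k + 6) / 12 := by linarith
    positivity)).1 hk.2
  have f2 := (Nat.floor_eq_iff (by
    have : 0 ≤ (tt β k' + 6) / 12 := by linarith
    positivity)).1 hk'.2
  have h7 : |tt β k' - tt β k| * N = |(tt β k' - tt β k) * N| := by rw [abs_mul, abs_of_pos hN0]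
  rw [le_div_iff₀ hN0, h7, abs_le]
  constructor <;> linarith [f1.1, f1.2, f2.1, f2.2]

private theorem q6_disj {β : ℝ} {S : Finset (ℤ × ℤ)} {N : ℕ} (F : ℕ → Finset ((ℤ × ℤ) × (ℤ × ℤ))) {T : ℝ}
    (hF : ∀ j, F j ⊆ arc β S N j ×ˢ arc β S N j) (hT : ∀ j, ∀ q ∈ F j, |((dd q.1 q.2 : ℤ) : ℝ)| ≤ T) :
    ∑ j ∈ Finset.range N, ((F j).card : ℝ) ≤ ((q6P S T).card : ℝ) := by
  classical
  have h4 : ((Finset.range N).biUnion F).card = ∑ j ∈ Finset.range N, (F j).card := by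
    refine Finset.card_biUnion fun i _ j _ hij => ?_
    refine Finset.disjoint_left.2 ?_
    rintro ⟨k, k'⟩ h5 h6
    have h7 := (Finset.mem_product.1 (hF _ h5)).1
    have h8 := (Finset.mem_product.1 (hF _ h6)).1
    unfold arc at h7 h8
    rw [Finset.mem_filter] at h7 h8
    exact hij (h7.2.symm.trans h8.2)
  have h5 : ((Finset.range N).biUnion F) ⊆ q6P S T := by
    intro q hq
    rw [Finset.mem_biUnion] at hq
    obtain ⟨j, -, hj⟩ := hq
    have h7 := (Finset.mem_product.1 (hF _ hj)).1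
    have h8 := (Finset.mem_product.1 (hF _ hj)).2
    unfold q6P
    rw [Finset.mem_filter]
    exact ⟨Finset.mem_product.2 ⟨q6_arc_sub h7, q6_arc_sub h8⟩, hT j q hj⟩
  have h6 := Finset.card_le_card h5
  rw [h4] at h6
  exact_mod_cast h6

private theorem q6_sum {β : ℝ} {S : Finset (ℤ × ℤ)} {N : ℕ} : ∑ j ∈ Finset.range N, ((arc β S N j).card : ℝ) ≤ (S.card : ℝ) := by
  classical
  have h4 : ((Finset.range N).biUnion (fun j => arc β S N j)).card = ∑ j ∈ Finset.range N, (arc β S N j).card := by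
    refine Finset.card_biUnion fun i _ j _ hij => ?_
    refine Finset.disjoint_left.2 ?_
    intro k h5 h6
    unfold arc at h5 h6
    rw [Finset.mem_filter] at h5 h6
    exact hij (h5.2.symm.trans h6.2)
  have h5 : ((Finset.range N).biUnion (fun j => arc β S N j)) ⊆ S := by
    intro q hq
    rw [Finset.mem_biUnion] at hq
    obtain ⟨j, -, hj⟩ := hq
    exact q6_arc_sub hj
  have h6 := Finset.card_le_card h5
  rw [h4] at h6
  exact_mod_cast h6

/-- the squares of the arcs -/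
private theorem q6_sq {β U : ℝ} {S : Finset (ℤ × ℤ)} {N : ℕ} (hN : 1 ≤ N) (hS : ∀ k ∈ S, 0 < uu β k ∧ uu β k ≤ U ∧ |tt β k| ≤ 5) :
    ∑ j ∈ Finset.range N, ((arc β S N j).card : ℝ) ^ 2 ≤ ((q6P S (U ^ 2 * (12 / N))).card : ℝ) := by
  have h7 : ∑ j ∈ Finset.range N, ((arc β S N j).card : ℝ) ^ 2 =
      ∑ j ∈ Finset.range N, ((arc β S N j ×ˢ arc β S N j).card : ℝ) := by
    refine Finset.sum_congr rfl fun j _ => ?_
    rw [Finset.card_product]
    push_cast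
    ring
  rw [h7]
  refine q6_disj (fun j => arc β S N j ×ˢ arc β S N j) (fun j => Finset.Subset.refl _) ?_
  intro j q hq
  have h1 := (Finset.mem_product.1 hq).1
  have h2 := (Finset.mem_product.1 hq).2
  have h3 := hS _ (q6_arc_sub h1)
  have h4 := hS _ (q6_arc_sub h2)
  exact q6_dd h3.1 h4.1 h3.2.1 h4.2.1 (q6_arc hN (fun k hk => (hS k hk).2.2) h1 h2)

private theorem q6P_mono {S : Finset (ℤ × ℤ)} {D D' : ℝ} (h : D ≤ D') : ((q6P S D).card : ℝ) ≤ ((q6P S D').card : ℝ) := by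
  classical
  have : q6P S D ⊆ q6P S D' := by
    intro q hq
    unfold q6P at hq ⊢
    rw [Finset.mem_filter] at hq ⊢
    exact ⟨hq.1, hq.2.trans h⟩
  exact_mod_cast Finset.card_le_card this

open Classical in
private theorem q6_six {ε c₁ C₀ lam : ℝ} (hε : 0 < ε) (hc : 0 < c₁) (hl : 1 ≤ lam) : ∃ C : ℝ, 1 ≤ C ∧
    ∀ (q : ℝ → ℝ) (x₀ ρ H X₁ : ℝ) (v : ℝ → ℝ) (a : ℤ × ℤ → ℂ) (A : Finset (ℤ × ℤ)), Crv6 c₁ C₀ ρ q → (∀ k, ‖a k‖ ≤ 1) → 0 < ρ → ρ ≤ 5 →
      1 ≤ H → 0 < X₁ → IsWt X₁ v → (∀ k ∈ A, H / lam ≤ uu x₀ k ∧ uu x₀ k ≤ lam * H ∧ |tt x₀ k| ≤ ρ) →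
      n6 (mu v) (gs A a (Pool.Agent.Helper78.CG.ff x₀ q)) ^ 3 ≤ C * H ^ ε * (A.card : ℝ) *
        (((A ×ˢ A).filter (fun z => |((dd z.1 z.2 : ℤ) : ℝ)| ≤ C * (1 + H ^ 2 / √(H * X₁)))).card : ℝ) ^ 2 := by
  classical
  obtain ⟨M, hM, C', hC', h6⟩ := Pool.Agent.Helper78.CG.dec6 (ε := ε / 6) (c := c₁) (C₀ := C₀) (lam := lam) (by positivity) hc hl
  have hM0 : (1 : ℝ) < M := by exact_mod_cast (by omega : 1 < M)
  have hC0 : 0 < C' := by linarith
  have hsC : 1 ≤ √C' := by rw [one_le_sqrt]; exact hC'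
  obtain ⟨K, hK⟩ : ∃ K : ℝ, K = 12 * M * lam ^ 2 * (1 + √C') := ⟨_, rfl⟩
  have hl2 : 1 ≤ lam ^ 2 := one_le_pow₀ hl
  have hK0 : 0 < K := by rw [hK]; positivity
  obtain ⟨C, hC⟩ : ∃ C : ℝ, C = C' ^ 3 + K := ⟨_, rfl⟩
  have hC3 : 1 ≤ C' ^ 3 := one_le_pow₀ hC'
  have hC1 : 1 ≤ C := by rw [hC]; linarith
  refine ⟨C, hC1, ?_⟩
  intro q x₀ ρ H X₁ v a A hp ha hρ hρ5 hH hX hv hA
  have hH0 : 0 < H := by linarith
  have hHX : 0 < H * X₁ := by positivity
  have hsH : 0 < √(H * X₁) := sqrt_pos.2 hHX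
  have hHe : 1 ≤ H ^ ε := one_le_rpow hH hε.le
  change _ ≤ C * H ^ ε * (A.card : ℝ) * ((q6P A (C * (1 + H ^ 2 / √(H * X₁)))).card : ℝ) ^ 2
  have hA' : ∀ k ∈ A, 0 < uu x₀ k ∧ uu x₀ k ≤ lam * H ∧ |tt x₀ k| ≤ 5 := fun k hk =>
    ⟨lt_of_lt_of_le (by positivity) (hA k hk).1, (hA k hk).2.1, (hA k hk).2.2.trans hρ5⟩
  rcases le_or_gt 1 (min (H ^ 2) (√(H * X₁ / C'))) with hP | hP
  · obtain ⟨P, hPd⟩ : ∃ P : ℝ, P = min (H ^ 2) (√(H * X₁ / C')) := ⟨_, rfl⟩
    rw [← hPd] at hP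
    obtain ⟨m, hm1, hm2⟩ := exists_nat_pow_near hP hM0
    have hP0 : 0 < P := by linarith
    have hMm : (0 : ℝ) < (M : ℝ) ^ m := by positivity
    have hPH : P ≤ H ^ 2 := by rw [hPd]; exact min_le_left _ _
    have hPX : P ≤ √(H * X₁ / C') := by rw [hPd]; exact min_le_right _ _
    have hcond : C' / X₁ ≤ H * (1 / (M : ℝ) ^ m) ^ 2 := by
      have h1 : ((M : ℝ) ^ m) ^ 2 ≤ H * X₁ / C' := by
        have h2 : (M : ℝ) ^ m ≤ √(H * X₁ / C') := hm1.trans hPX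
        have h3 := pow_le_pow_left₀ hMm.le h2 2
        rwa [sq_sqrt (by positivity)] at h3
      rw [one_div, inv_pow, ← div_eq_mul_inv, div_le_div_iff₀ hX (by positivity)]
      rw [le_div_iff₀ hC0] at h1
      linarith
    have h7 := h6 m x₀ H ρ X₁ q v a A hH0 hX hρ hρ5 hA hp hv hcond
    obtain ⟨x, hx⟩ : ∃ x : ℕ → ℝ, ∀ r, x r = ((arc x₀ A (M ^ m) r).card : ℝ) := ⟨_, fun _ => rfl⟩
    have hx0 : ∀ r, 0 ≤ x r := fun r => by rw [hx]; positivity
    have h8 : ∑ r ∈ Finset.range (M ^ m), n6 (mu v) (gs (arc x₀ A (M ^ m) r) a (Pool.Agent.Helper78.CG.ff x₀ q)) ≤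
        ∑ r ∈ Finset.range (M ^ m), x r ^ (5 / 3 : ℝ) := by
      refine Finset.sum_le_sum fun r _ => ?_
      rw [hx]
      exact Pool.Agent.Helper92.GC.n6_gs_card hv _ ha _
    have hMe : 0 < (M : ℝ) ^ (ε / 6 * (m : ℝ)) := by positivity
    have h9 : n6 (mu v) (gs A a (Pool.Agent.Helper78.CG.ff x₀ q)) ^ 3 ≤
        (C' * (M : ℝ) ^ (ε / 6 * (m : ℝ)) * ∑ r ∈ Finset.range (M ^ m), x r ^ (5 / 3 : ℝ)) ^ 3 := by
      refine pow_le_pow_left₀ (Pool.Agent.Helper22.AC.n6_nonneg _ _) (h7.trans ?_) 3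
      exact mul_le_mul_of_nonneg_left h8 (by positivity)
    have h10 := q6_hold1 (M ^ m) x hx0
    have h11 : ∑ r ∈ Finset.range (M ^ m), x r ≤ (A.card : ℝ) := by
      have := q6_sum (β := x₀) (S := A) (N := M ^ m)
      simpa only [hx] using this
    have hMm1 : 1 ≤ M ^ m := Nat.one_le_pow _ _ (by omega)
    have h12 : ∑ r ∈ Finset.range (M ^ m), x r ^ 2 ≤ ((q6P A (C * (1 + H ^ 2 / √(H * X₁)))).card : ℝ) := by
      have h13 := q6_sq (β := x₀) (S := A) (N := M ^ m) (U := lam * H) hMm1 hA'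
      have h14 : ∑ r ∈ Finset.range (M ^ m), x r ^ 2 = ∑ j ∈ Finset.range (M ^ m), ((arc x₀ A (M ^ m) j).card : ℝ) ^ 2 := by
        simp only [hx]
      rw [h14]
      refine h13.trans (q6P_mono ?_)
      push_cast
      have h15 : P < M * (M : ℝ) ^ m := by rw [pow_succ] at hm2; linarith
      have h16 : 1 / (M : ℝ) ^ m ≤ M / P := by
        rw [div_le_div_iff₀ hMm hP0]
        linarith
      have h17 : 1 / P ≤ 1 / H ^ 2 + √C' / √(H * X₁) := by
        rcases min_choice (H ^ 2) (√(H * X₁ / C')) with h | h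
        · rw [hPd, h]
          have : 0 ≤ √C' / √(H * X₁) := by positivity
          linarith
        · rw [hPd, h, sqrt_div hHX.le, one_div_div]
          have : 0 ≤ 1 / H ^ 2 := by positivity
          linarith
      have h18 : (lam * H) ^ 2 * (12 / (M : ℝ) ^ m) = 12 * lam ^ 2 * H ^ 2 * (1 / (M : ℝ) ^ m) := by ring
      rw [h18]
      have h19 : H ^ 2 * (M / P) ≤ M * (1 + √C' * (H ^ 2 / √(H * X₁))) := by
        have h20 : H ^ 2 * (M / P) = M * (H ^ 2 * (1 / P)) := by ring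
        rw [h20]
        refine mul_le_mul_of_nonneg_left ?_ (by positivity)
        refine (mul_le_mul_of_nonneg_left h17 (by positivity : (0 : ℝ) ≤ H ^ 2)).trans (le_of_eq ?_)
        have : H ^ 2 ≠ 0 := by positivity
        field_simp
      have h21 : 0 ≤ H ^ 2 / √(H * X₁) := by positivity
      calc 12 * lam ^ 2 * H ^ 2 * (1 / (M : ℝ) ^ m) ≤ 12 * lam ^ 2 * H ^ 2 * (M / P) :=
            mul_le_mul_of_nonneg_left h16 (by positivity)
        _ = 12 * lam ^ 2 * (H ^ 2 * (M / P)) := by ring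
        _ ≤ 12 * lam ^ 2 * (M * (1 + √C' * (H ^ 2 / √(H * X₁)))) := mul_le_mul_of_nonneg_left h19 (by positivity)
        _ ≤ 12 * lam ^ 2 * (M * ((1 + √C') * (1 + (H ^ 2 / √(H * X₁))))) := by
            refine mul_le_mul_of_nonneg_left ?_ (by positivity)
            refine mul_le_mul_of_nonneg_left ?_ (by positivity)
            have h22 : (1 + √C') * (1 + H ^ 2 / √(H * X₁)) = 1 + √C' * (H ^ 2 / √(H * X₁)) + (√C' + H ^ 2 / √(H * X₁)) := by ring
            rw [h22]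
            linarith [sqrt_nonneg C']
        _ = K * (1 + H ^ 2 / √(H * X₁)) := by rw [hK]; ring
        _ ≤ C * (1 + H ^ 2 / √(H * X₁)) := by
            refine mul_le_mul_of_nonneg_right ?_ (by positivity)
            rw [hC]
            linarith
    obtain ⟨Q, hQ⟩ : ∃ Q : ℝ, Q = ((q6P A (C * (1 + H ^ 2 / √(H * X₁)))).card : ℝ) := ⟨_, rfl⟩
    rw [← hQ] at h12 ⊢
    have hsx0 : 0 ≤ ∑ r ∈ Finset.range (M ^ m), x r := Finset.sum_nonneg fun r _ => hx0 r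
    have hsx2 : 0 ≤ ∑ r ∈ Finset.range (M ^ m), x r ^ 2 := Finset.sum_nonneg fun r _ => by positivity
    have hMe3 : ((M : ℝ) ^ (ε / 6 * (m : ℝ))) ^ 3 ≤ H ^ ε := by
      have e1 : ((M : ℝ) ^ (ε / 6 * (m : ℝ))) ^ 3 = ((M : ℝ) ^ m) ^ (ε / 2) := by
        rw [← rpow_natCast, ← rpow_mul (by positivity), ← rpow_natCast, ← rpow_mul (by positivity)]
        congr 1
        push_cast
        ring
      rw [e1]
      have e2 : ((M : ℝ) ^ m) ^ (ε / 2) ≤ (H ^ 2) ^ (ε / 2) := rpow_le_rpow hMm.le (hm1.trans hPH) (by positivity)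
      refine e2.trans (le_of_eq ?_)
      rw [← rpow_natCast, ← rpow_mul hH0.le]
      congr 1
      push_cast
      ring
    refine h9.trans ?_
    rw [mul_pow, mul_pow]
    have h22 : (∑ r ∈ Finset.range (M ^ m), x r ^ (5 / 3 : ℝ)) ^ 3 ≤ Q ^ 2 * A.card := by
      refine h10.trans ?_
      exact mul_le_mul (pow_le_pow_left₀ hsx2 h12 2) h11 hsx0 (by positivity)
    calc C' ^ 3 * ((M : ℝ) ^ (ε / 6 * (m : ℝ))) ^ 3 * (∑ r ∈ Finset.range (M ^ m), x r ^ (5 / 3 : ℝ)) ^ 3 ≤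
          C' ^ 3 * H ^ ε * (Q ^ 2 * A.card) := by
          refine mul_le_mul (mul_le_mul_of_nonneg_left hMe3 (by positivity)) h22 ?_ (by positivity)
          exact pow_nonneg (Finset.sum_nonneg fun r _ => rpow_nonneg (hx0 r) _) 3
      _ ≤ C * H ^ ε * (Q ^ 2 * A.card) := by
          refine mul_le_mul_of_nonneg_right ?_ (by positivity)
          refine mul_le_mul_of_nonneg_right ?_ (by positivity)
          rw [hC]
          linarith
      _ = _ := by ring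
  · -- all pairs are admissible
    have h1 : √(H * X₁ / C') < 1 := by
      rcases min_lt_iff.1 hP with h | h
      · have : 1 ≤ H ^ 2 := one_le_pow₀ hH
        linarith
      · exact h
    have h2 : √(H * X₁) ≤ √C' := by
      rw [sqrt_div hHX.le, div_lt_one (by positivity)] at h1
      exact h1.le
    have h3 : q6P A (C * (1 + H ^ 2 / √(H * X₁))) = A ×ˢ A := by
      unfold q6P
      rw [Finset.filter_eq_self]
      intro z hz
      have g1 := hA' _ (Finset.mem_product.1 hz).1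
      have g2 := hA' _ (Finset.mem_product.1 hz).2
      have g3 : |tt x₀ z.2 - tt x₀ z.1| ≤ 10 := by
        have := abs_sub (tt x₀ z.2) (tt x₀ z.1)
        linarith [g1.2.2, g2.2.2]
      refine (q6_dd g1.1 g2.1 g1.2.1 g2.2.1 g3).trans ?_
      have g4 : H ^ 2 ≤ √C' * (H ^ 2 / √(H * X₁)) := by
        rw [← mul_div_assoc, le_div_iff₀ hsH, mul_comm]
        exact mul_le_mul_of_nonneg_right h2 (by positivity)
      have g5 : 0 ≤ H ^ 2 / √(H * X₁) := by positivity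
      have g6 : lam ^ 2 * 10 * √C' ≤ C := by
        rw [hC, hK]
        have : lam ^ 2 * 10 * √C' ≤ 12 * M * lam ^ 2 * (1 + √C') := by
          have t1 : lam ^ 2 * √C' * 10 ≤ lam ^ 2 * √C' * (12 * M) := by
            refine mul_le_mul_of_nonneg_left ?_ (by positivity)
            linarith
          have t2 : 0 ≤ 12 * M * lam ^ 2 := by positivity
          nlinarith
        linarith
      calc (lam * H) ^ 2 * 10 = lam ^ 2 * 10 * H ^ 2 := by ring
        _ ≤ lam ^ 2 * 10 * (√C' * (H ^ 2 / √(H * X₁))) := mul_le_mul_of_nonneg_left g4 (by positivity)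
        _ = (lam ^ 2 * 10 * √C') * (H ^ 2 / √(H * X₁)) := by ring
        _ ≤ C * (H ^ 2 / √(H * X₁)) := mul_le_mul_of_nonneg_right g6 g5
        _ ≤ C * (1 + H ^ 2 / √(H * X₁)) := by
            refine mul_le_mul_of_nonneg_left ?_ (by linarith)
            linarith
    rw [h3, Finset.card_product]
    push_cast
    have h4 := Pool.Agent.Helper92.GC.n6_gs_card hv A ha (Pool.Agent.Helper78.CG.ff x₀ q)
    have h5 : n6 (mu v) (gs A a (Pool.Agent.Helper78.CG.ff x₀ q)) ^ 3 ≤ ((A.card : ℝ) ^ (5 / 3 : ℝ)) ^ 3 :=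
      pow_le_pow_left₀ (Pool.Agent.Helper22.AC.n6_nonneg _ _) h4 3
    have h6' : ((A.card : ℝ) ^ (5 / 3 : ℝ)) ^ 3 = (A.card : ℝ) ^ 5 := by
      rw [← rpow_natCast, ← rpow_mul (by positivity), ← rpow_natCast]
      norm_num
    rw [h6'] at h5
    refine h5.trans ?_
    have h7 : (A.card : ℝ) ^ 5 = 1 * 1 * (A.card : ℝ) * ((A.card : ℝ) * (A.card : ℝ)) ^ 2 := by ring
    rw [h7]
    gcongr

private theorem q6_fin (S : Finset (ℤ × ℤ)) :
    Continuous (fun z : S → ℂ => ∫ c in Tq, ‖∑ k : S, z k * ee (dt (k : ℤ × ℤ) c)‖ ^ 6) := by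
  have hcomp : IsCompact Tq := isCompact_Icc.prod isCompact_Icc
  refine continuous_parametric_integral_of_continuous
    (f := fun (z : S → ℂ) (c : ℝ × ℝ) => ‖∑ k : S, z k * ee (dt (k : ℤ × ℤ) c)‖ ^ 6) ?_ hcomp
  have h1 : Continuous (fun q : (S → ℂ) × (ℝ × ℝ) => ∑ k : S, q.1 k * ee (dt (k : ℤ × ℤ) q.2)) := by
    unfold dt
    refine continuous_finsetSum _ fun k _ => ?_
    exact Continuous.mul ((continuous_apply k).comp continuous_fst) (ee_cont.comp (by fun_prop))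
  exact h1.norm.pow 6

private theorem q6_cont {X : Type} [TopologicalSpace X] (S : Finset (ℤ × ℤ)) (b : X → ℤ × ℤ → ℂ)
    (hb : ∀ k ∈ S, Continuous (fun q => b q k)) : Continuous (fun q => m6 S (b q)) := by
  have h1 : (fun q => m6 S (b q)) =
      (fun z : S → ℂ => ∫ c in Tq, ‖∑ k : S, z k * ee (dt (k : ℤ × ℤ) c)‖ ^ 6) ∘
        fun q => fun k : S => b q k := by
    funext q
    simp only [Function.comp, m6, tp]
    congr 1
    funext c
    rw [← Finset.sum_coe_sort S (fun k => b q k * ee (dt k c))]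
  rw [h1]
  exact (q6_fin S).comp (continuous_pi fun k => hb k k.2)

private theorem q6_tq : IsProbabilityMeasure ((volume : Measure (ℝ × ℝ)).restrict Tq) := by
  constructor
  unfold Tq
  rw [Measure.restrict_apply_univ, Measure.volume_eq_prod, Measure.prod_prod, Real.volume_Icc,
    sub_zero, ENNReal.ofReal_one, mul_one]

private theorem q6_tp_cont (S : Finset (ℤ × ℤ)) (b : ℤ × ℤ → ℂ) : Continuous (tp S b) := by
  unfold tp
  refine continuous_finsetSum _ fun k _ => continuous_const.mul (ee_cont.comp ?_)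
  unfold dt
  fun_prop

private theorem q6_tp_card (S : Finset (ℤ × ℤ)) {b : ℤ × ℤ → ℂ} (hb : ∀ k, ‖b k‖ ≤ 1) (c : ℝ × ℝ) : ‖tp S b c‖ ≤ S.card := by
  unfold tp
  refine (norm_sum_le _ _).trans ?_
  have h : ∀ k ∈ S, ‖b k * ee (dt k c)‖ ≤ 1 := by
    intro k _
    rw [norm_mul, ee_norm, mul_one]
    exact hb k
  refine (Finset.sum_le_sum h).trans (le_of_eq ?_)
  simp

private theorem q6_m6_card (S : Finset (ℤ × ℤ)) {b : ℤ × ℤ → ℂ} (hb : ∀ k, ‖b k‖ ≤ 1) : m6 S b ≤ (S.card : ℝ) ^ 6 := by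
  have hp := q6_tq
  have h : m6 S b ≤ ∫ c in Tq, ((S.card : ℝ) ^ 6) := by
    unfold m6
    refine integral_mono_of_nonneg (Filter.Eventually.of_forall fun q => by positivity) (integrable_const _)
      (Filter.Eventually.of_forall fun c => ?_)
    exact pow_le_pow_left₀ (norm_nonneg _) (q6_tp_card S hb c) 6
  refine h.trans (le_of_eq ?_)
  rw [integral_const, probReal_univ, one_smul]

private theorem q6_m6_nonneg (S : Finset (ℤ × ℤ)) (b : ℤ × ℤ → ℂ) : 0 ≤ m6 S b := by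
  unfold m6
  exact integral_nonneg fun c => by positivity

/-- the same for the twentieth moment, by the trivial bound for fourteen factors -/
theorem m20_m6 (A : Finset (ℤ × ℤ)) (a : ℤ × ℤ → ℂ) (ha : ∀ k, ‖a k‖ ≤ 1) : Pool.Agent.Helper75.TW.m20 A a ≤ (A.card : ℝ) ^ 14 * m6 A a := by
  have hp := q6_tq
  have hint : Integrable (fun c => ‖tp A a c‖ ^ 6) (volume.restrict Tq) := by
    refine Integrable.of_bound (C := (A.card : ℝ) ^ 6)
      ((q6_tp_cont A a).norm.pow 6).aestronglyMeasurable (Filter.Eventually.of_forall fun c => ?_)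
    rw [Real.norm_of_nonneg (by positivity)]
    exact pow_le_pow_left₀ (norm_nonneg _) (q6_tp_card A ha c) 6
  unfold Pool.Agent.Helper75.TW.m20 m6
  rw [← integral_const_mul]
  refine integral_mono_of_nonneg (Filter.Eventually.of_forall fun q => by positivity)
      (hint.const_mul _) (Filter.Eventually.of_forall fun c => ?_)
  change ‖tp A a c‖ ^ 20 ≤ _
  have h4 : ‖tp A a c‖ ^ 20 = ‖tp A a c‖ ^ 14 * ‖tp A a c‖ ^ 6 := by ring
  rw [h4]
  exact mul_le_mul_of_nonneg_right (pow_le_pow_left₀ (norm_nonneg _) (q6_tp_card A ha c) 14) (by positivity)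

private theorem q6_wt {X : ℝ} {v : ℝ → ℝ} (hv : IsWt X v) : Integrable v := by
  by_contra hcon
  have h2 := hv.int_one
  rw [integral_undef hcon] at h2
  exact zero_ne_one h2

/-- one interval of length `X` -/
private theorem q6_line {c₀ X R₁ Q : ℝ} (hc₀ : 0 < c₀) (hX : 0 < X) {v : ℝ → ℝ} (hv : IsWt X v)
    (hlo : ∀ R ∈ Icc R₁ (R₁ + X), c₀ / X ≤ v R) (A : Finset (ℤ × ℤ)) {a : ℤ × ℤ → ℂ} (ha : ∀ k, ‖a k‖ ≤ 1) (f : ℤ × ℤ → ℝ)
    (hQ : n6 (mu v) (gs A a f) ^ 3 ≤ Q) :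
    ∫⁻ R in Icc R₁ (R₁ + X), ENNReal.ofReal (m6 A (fun k => a k * ee (R * f k))) ≤ ENNReal.ofReal (X / c₀ * Q) := by
  have hcont : Continuous (fun R : ℝ => m6 A (fun k => a k * ee (R * f k))) := by
    refine q6_cont A (fun (R : ℝ) k => a k * ee (R * f k)) fun k _ => ?_
    exact continuous_const.mul (ee_cont.comp (by fun_prop))
  have hle : ∀ R : ℝ, m6 A (fun k => a k * ee (R * f k)) ≤ (A.card : ℝ) ^ 6 := by
    intro R
    refine q6_m6_card A fun k => ?_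
    rw [norm_mul, ee_norm, mul_one]
    exact ha k
  have hint : Integrable (fun R => v R * m6 A (fun k => a k * ee (R * f k))) := by
    refine ((q6_wt hv).mul_const ((A.card : ℝ) ^ 6)).mono' (hv.cont.mul hcont).aestronglyMeasurable
      (Filter.Eventually.of_forall fun R => ?_)
    rw [Real.norm_of_nonneg (mul_nonneg (hv.nonneg R) (q6_m6_nonneg _ _))]
    exact mul_le_mul_of_nonneg_left (hle R) (hv.nonneg R)
  have hXc : 0 < X / c₀ := by positivity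
  calc ∫⁻ R in Icc R₁ (R₁ + X), ENNReal.ofReal (m6 A (fun k => a k * ee (R * f k)))
      ≤ ∫⁻ R in Icc R₁ (R₁ + X), ENNReal.ofReal (X / c₀ * (v R * m6 A (fun k => a k * ee (R * f k)))) := by
        refine setLIntegral_mono' measurableSet_Icc fun R hR => ENNReal.ofReal_le_ofReal ?_
        have h1 := hlo R hR
        have h2 := q6_m6_nonneg A (fun k => a k * ee (R * f k))
        have h3 : 1 ≤ X / c₀ * v R := by
          rw [div_mul_eq_mul_div, le_div_iff₀ hc₀, one_mul]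
          rw [div_le_iff₀ hX] at h1
          linarith
        calc m6 A (fun k => a k * ee (R * f k)) = 1 * m6 A (fun k => a k * ee (R * f k)) := (one_mul _).symm
          _ ≤ X / c₀ * v R * m6 A (fun k => a k * ee (R * f k)) := mul_le_mul_of_nonneg_right h3 h2
          _ = _ := by ring
    _ ≤ ∫⁻ R, ENNReal.ofReal (X / c₀ * (v R * m6 A (fun k => a k * ee (R * f k)))) := setLIntegral_le_lintegral _ _
    _ = ENNReal.ofReal (∫ R, X / c₀ * (v R * m6 A (fun k => a k * ee (R * f k)))) := by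
        rw [ofReal_integral_eq_lintegral_ofReal (hint.const_mul _)]
        exact Filter.Eventually.of_forall fun R => mul_nonneg hXc.le (mul_nonneg (hv.nonneg R) (q6_m6_nonneg _ _))
    _ ≤ ENNReal.ofReal (X / c₀ * Q) := by
        rw [integral_const_mul, ← Pool.Agent.Helper92.GC.n6_slice hv A a f]
        exact ENNReal.ofReal_le_ofReal (mul_le_mul_of_nonneg_left hQ hXc.le)

/-- the slice of the norm -/
private noncomputable def q6q (x y t : ℝ) : ℝ := √((1 + x * t) ^ 2 + y ^ 2 * t ^ 2)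

private theorem q6_crv {L : ℝ} (hL : 1 ≤ L) : ∃ c C₀ : ℝ, 0 < c ∧ ∀ x y : ℝ, |x| ≤ L → |y| ≤ L → 1 ≤ L * |y| → Crv6 c C₀ 2 (q6q x y) := by
  have hL0 : 0 < L := by linarith
  obtain ⟨G, hG⟩ : ∃ G : ℝ, G = (1 + 2 * L) ^ 2 + 4 * L ^ 2 := ⟨_, rfl⟩
  have hG0 : 0 < G := by rw [hG]; positivity
  obtain ⟨m, hm⟩ : ∃ m : ℝ, m = 1 / (2 * L ^ 4) := ⟨_, rfl⟩
  have hm0 : 0 < m := by rw [hm]; positivity
  refine ⟨1 / L ^ 2 / (G * √G), L ^ 2 / (m * √m), by positivity, ?_⟩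
  intro x y hx hy hy1
  have hy0 : 0 < |y| := by
    by_contra hcon
    push Not at hcon
    nlinarith [abs_nonneg y]
  have hx2 : x ^ 2 ≤ L ^ 2 := by
    rw [← sq_abs x]
    exact pow_le_pow_left₀ (abs_nonneg _) hx 2
  have hy2 : y ^ 2 ≤ L ^ 2 := by
    rw [← sq_abs y]
    exact pow_le_pow_left₀ (abs_nonneg _) hy 2
  have hy3 : 1 ≤ L ^ 2 * y ^ 2 := by
    rw [← sq_abs y, ← mul_pow]
    exact one_le_pow₀ hy1
  have hy4 : 0 < y ^ 2 := by
    rw [← sq_abs y]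
    positivity
  have hD : 0 < x ^ 2 + y ^ 2 := by positivity
  have hg0 : ∀ t : ℝ, m ≤ (1 + x * t) ^ 2 + y ^ 2 * t ^ 2 := by
    intro t
    have h1 : y ^ 2 ≤ (x ^ 2 + y ^ 2) * ((1 + x * t) ^ 2 + y ^ 2 * t ^ 2) := by
      nlinarith [sq_nonneg (x + (x ^ 2 + y ^ 2) * t)]
    have h2 : (x ^ 2 + y ^ 2) * ((1 + x * t) ^ 2 + y ^ 2 * t ^ 2) ≤ (2 * L ^ 2) * ((1 + x * t) ^ 2 + y ^ 2 * t ^ 2) := by
      refine mul_le_mul_of_nonneg_right (by linarith) (by positivity)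
    rw [hm, div_le_iff₀ (by positivity)]
    calc (1 : ℝ) ≤ L ^ 2 * y ^ 2 := hy3
      _ ≤ L ^ 2 * ((2 * L ^ 2) * ((1 + x * t) ^ 2 + y ^ 2 * t ^ 2)) := by
        refine mul_le_mul_of_nonneg_left (h1.trans h2) (by positivity)
      _ = _ := by ring
  refine ⟨fun t => (2 * x + 2 * (x ^ 2 + y ^ 2) * t) / (2 * √((1 + x * t) ^ 2 + y ^ 2 * t ^ 2)),
    fun t => y ^ 2 / (((1 + x * t) ^ 2 + y ^ 2 * t ^ 2) * √((1 + x * t) ^ 2 + y ^ 2 * t ^ 2)), ?_⟩
  intro t ht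
  have hgt : 0 < (1 + x * t) ^ 2 + y ^ 2 * t ^ 2 := lt_of_lt_of_le hm0 (hg0 t)
  have hst : 0 < √((1 + x * t) ^ 2 + y ^ 2 * t ^ 2) := sqrt_pos.2 hgt
  have hss : √((1 + x * t) ^ 2 + y ^ 2 * t ^ 2) ^ 2 = (1 + x * t) ^ 2 + y ^ 2 * t ^ 2 := sq_sqrt hgt.le
  have hdg : HasDerivAt (fun t : ℝ => (1 + x * t) ^ 2 + y ^ 2 * t ^ 2) (2 * x + 2 * (x ^ 2 + y ^ 2) * t) t := by
    have h1 : HasDerivAt (fun t : ℝ => 1 + x * t) x t := by
      simpa using ((hasDerivAt_id t).const_mul x).const_add 1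
    have h2 := (h1.pow 2).add ((hasDerivAt_pow 2 t).const_mul (y ^ 2))
    refine h2.congr_deriv ?_
    push_cast
    ring
  have hdq : HasDerivAt (fun t : ℝ => √((1 + x * t) ^ 2 + y ^ 2 * t ^ 2))
      ((2 * x + 2 * (x ^ 2 + y ^ 2) * t) / (2 * √((1 + x * t) ^ 2 + y ^ 2 * t ^ 2))) t := hdg.sqrt hgt.ne'
  have ht2 : t ^ 2 ≤ 4 := by
    rw [← sq_abs t]
    nlinarith [abs_nonneg t]
  have hgG : (1 + x * t) ^ 2 + y ^ 2 * t ^ 2 ≤ G := by
    have h1 : |1 + x * t| ≤ 1 + 2 * L := by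
      refine (abs_add_le _ _).trans ?_
      rw [abs_one, abs_mul]
      nlinarith [abs_nonneg x, abs_nonneg t]
    have h2 : (1 + x * t) ^ 2 ≤ (1 + 2 * L) ^ 2 := by
      rw [← sq_abs (1 + x * t)]
      exact pow_le_pow_left₀ (abs_nonneg _) h1 2
    have h3 : y ^ 2 * t ^ 2 ≤ L ^ 2 * 4 := mul_le_mul hy2 ht2 (by positivity) (by positivity)
    rw [hG]
    linarith
  refine ⟨hdq, ?_, ?_, ?_⟩
  · have h1 : HasDerivAt (fun t : ℝ => 2 * x + 2 * (x ^ 2 + y ^ 2) * t) (2 * (x ^ 2 + y ^ 2)) t := by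
      simpa using ((hasDerivAt_id t).const_mul (2 * (x ^ 2 + y ^ 2))).const_add (2 * x)
    have h2 := h1.div (hdq.const_mul 2) (by positivity)
    refine h2.congr_deriv ?_
    have hg' : 2 * (2 * (x ^ 2 + y ^ 2)) * ((1 + x * t) ^ 2 + y ^ 2 * t ^ 2) - (2 * x + 2 * (x ^ 2 + y ^ 2) * t) ^ 2 = 4 * y ^ 2 := by
      ring
    beta_reduce
    obtain ⟨r, hr⟩ : ∃ r : ℝ, r = √((1 + x * t) ^ 2 + y ^ 2 * t ^ 2) := ⟨_, rfl⟩
    rw [← hr] at hst hss ⊢
    rw [← hss] at hg' ⊢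
    have hr0 : r ≠ 0 := hst.ne'
    field_simp
    linear_combination hg' - 3 * (x ^ 2 + y ^ 2) * hss
  · have h1 : ((1 + x * t) ^ 2 + y ^ 2 * t ^ 2) * √((1 + x * t) ^ 2 + y ^ 2 * t ^ 2) ≤ G * √G :=
      mul_le_mul hgG (sqrt_le_sqrt hgG) hst.le hG0.le
    have h2 : 1 / L ^ 2 ≤ y ^ 2 := by
      rw [div_le_iff₀ (by positivity)]
      linarith
    exact div_le_div₀ hy4.le h2 (by positivity) h1
  · have h1 : m * √m ≤ ((1 + x * t) ^ 2 + y ^ 2 * t ^ 2) * √((1 + x * t) ^ 2 + y ^ 2 * t ^ 2) :=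
      mul_le_mul (hg0 t) (sqrt_le_sqrt (hg0 t)) (sqrt_nonneg _) hgt.le
    exact div_le_div₀ (by positivity) hy2 (by positivity) h1

private theorem q6_nm {θ y T x : ℝ} (hT : 0 < T) {k : ℤ × ℤ} (hk : 0 < (k.1 : ℝ)) :
    nm (vf (fr θ y T x) k) = T * (uu 0 k * q6q x y (tt 0 k)) := by
  have hu : uu 0 k = k.1 := by
    unfold uu
    ring
  have ht : (k.2 : ℝ) = k.1 * tt 0 k := by
    unfold tt
    rw [hu]
    field_simp
  obtain ⟨t, hte⟩ : ∃ t : ℝ, t = tt 0 k := ⟨_, rfl⟩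
  rw [hu, ← hte]
  rw [← hte] at ht
  unfold nm vf fr q6q
  simp only
  rw [ht]
  have e : ((k.1 : ℝ) * (T * cos θ) + k.1 * t * (T * (x * cos θ - y * sin θ))) ^ 2 +
      ((k.1 : ℝ) * (T * sin θ) + k.1 * t * (T * (x * sin θ + y * cos θ))) ^ 2 = (T * k.1) ^ 2 * ((1 + x * t) ^ 2 + y ^ 2 * t ^ 2) := by
    have h := sin_sq_add_cos_sq θ
    linear_combination ((T * k.1) ^ 2 * ((1 + x * t) ^ 2 + y ^ 2 * t ^ 2)) * h
  rw [e, sqrt_mul (by positivity), sqrt_sq (by positivity)]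
  ring

private theorem q6_UB (B X : ℝ) : MeasurableSet (UB B X) := by
  have h3 : Measurable df := by
    unfold df
    fun_prop
  have a1 : Measurable (fun f : Fr => |f.1.1|) := by fun_prop
  have a2 : Measurable (fun f : Fr => |f.1.2|) := by fun_prop
  have a3 : Measurable (fun f : Fr => |f.2.1|) := by fun_prop
  have a4 : Measurable (fun f : Fr => |f.2.2|) := by fun_prop
  have a5 : Measurable (fun f : Fr => B * |df f|) := by fun_prop
  exact (measurableSet_le a1 measurable_const).inter ((measurableSet_le a2 measurable_const).inter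
    ((measurableSet_le a3 measurable_const).inter ((measurableSet_le a4 measurable_const).inter
    (measurableSet_le measurable_const a5))))

private theorem q6_UB_fr {B X θ y T x : ℝ} (hB : 1 ≤ B) (hX : 0 < X) (hT : 0 < T) (h : fr θ y T x ∈ UB B X) :
    T ≤ 2 * B * X ∧ |x| ≤ 2 * B ^ 3 ∧ |y| ≤ 2 * B ^ 3 ∧ 1 ≤ 2 * B ^ 3 * |y| := by
  obtain ⟨h1, h2, h3, h4, h5⟩ := h
  have e4 := (Pool.Agent.Helper60.LT.fr_coord (θ := θ) (y := y) (T := T) (x := x) hT).2.2.2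
  rw [e4] at h5
  unfold fr at h1 h2 h3 h4
  simp only at h1 h2 h3 h4
  have hB0 : 0 < B := by linarith
  have hc := sin_sq_add_cos_sq θ
  have g1 : (T * cos θ) ^ 2 ≤ (B * X) ^ 2 := by
    rw [← sq_abs (T * cos θ)]
    exact pow_le_pow_left₀ (abs_nonneg _) h1 2
  have g2 : (T * sin θ) ^ 2 ≤ (B * X) ^ 2 := by
    rw [← sq_abs (T * sin θ)]
    exact pow_le_pow_left₀ (abs_nonneg _) h2 2
  have g3 : (T * (x * cos θ - y * sin θ)) ^ 2 ≤ (B * X) ^ 2 := by
    rw [← sq_abs (T * (x * cos θ - y * sin θ))]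
    exact pow_le_pow_left₀ (abs_nonneg _) h3 2
  have g4 : (T * (x * sin θ + y * cos θ)) ^ 2 ≤ (B * X) ^ 2 := by
    rw [← sq_abs (T * (x * sin θ + y * cos θ))]
    exact pow_le_pow_left₀ (abs_nonneg _) h4 2
  have k1 : T ^ 2 ≤ 2 * (B * X) ^ 2 := by
    have : T ^ 2 = (T * cos θ) ^ 2 + (T * sin θ) ^ 2 := by linear_combination (-T ^ 2) * hc
    linarith
  have k2 : T ^ 2 * (x ^ 2 + y ^ 2) ≤ 2 * (B * X) ^ 2 := by
    have : T ^ 2 * (x ^ 2 + y ^ 2) = (T * (x * cos θ - y * sin θ)) ^ 2 + (T * (x * sin θ + y * cos θ)) ^ 2 := by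
      linear_combination (-(T ^ 2 * (x ^ 2 + y ^ 2))) * hc
    linarith
  have k3 : X ^ 2 ≤ B * (T ^ 2 * |y|) := by
    rw [abs_mul, abs_of_pos (by positivity : 0 < T ^ 2)] at h5
    exact h5
  have hy : 0 < |y| := by
    by_contra hcon
    push Not at hcon
    have h0 : |y| = 0 := le_antisymm hcon (abs_nonneg _)
    rw [h0, mul_zero, mul_zero] at k3
    nlinarith
  have hX2 : 0 < X ^ 2 := by positivity
  have k4 : |y| ≤ 2 * B ^ 3 := by
    have a1 : T ^ 2 * |y| ^ 2 ≤ 2 * (B * X) ^ 2 := by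
      rw [sq_abs]
      have : 0 ≤ T ^ 2 * x ^ 2 := by positivity
      linarith
    have a2 : X ^ 2 * |y| ≤ X ^ 2 * (2 * B ^ 3) := by
      calc X ^ 2 * |y| ≤ B * (T ^ 2 * |y|) * |y| := mul_le_mul_of_nonneg_right k3 (abs_nonneg _)
        _ = B * (T ^ 2 * |y| ^ 2) := by ring
        _ ≤ B * (2 * (B * X) ^ 2) := mul_le_mul_of_nonneg_left a1 hB0.le
        _ = _ := by ring
    exact le_of_mul_le_mul_left a2 hX2
  have k5 : 1 ≤ 2 * B ^ 3 * |y| := by
    have a2 : X ^ 2 * 1 ≤ X ^ 2 * (2 * B ^ 3 * |y|) := by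
      calc X ^ 2 * 1 = X ^ 2 := mul_one _
        _ ≤ B * (T ^ 2 * |y|) := k3
        _ ≤ B * ((2 * (B * X) ^ 2) * |y|) := by
          refine mul_le_mul_of_nonneg_left (mul_le_mul_of_nonneg_right k1 (abs_nonneg _)) hB0.le
        _ = _ := by ring
    exact le_of_mul_le_mul_left a2 hX2
  refine ⟨?_, ?_, k4, k5⟩
  · have : T ^ 2 ≤ (2 * B * X) ^ 2 := by
      refine k1.trans ?_
      have : 0 ≤ (B * X) ^ 2 := by positivity
      nlinarith
    exact le_of_sq_le_sq this (by positivity)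
  · have a1 : X ^ 2 ≤ 2 * B ^ 4 * T ^ 2 := by
      calc X ^ 2 ≤ B * (T ^ 2 * |y|) := k3
        _ ≤ B * (T ^ 2 * (2 * B ^ 3)) := by gcongr
        _ = _ := by ring
    have a2 : T ^ 2 * x ^ 2 ≤ 2 * (B * X) ^ 2 := by
      have : 0 ≤ T ^ 2 * y ^ 2 := by positivity
      linarith
    have a3 : X ^ 2 * x ^ 2 ≤ X ^ 2 * (2 * B ^ 3) ^ 2 := by
      calc X ^ 2 * x ^ 2 ≤ 2 * B ^ 4 * T ^ 2 * x ^ 2 := mul_le_mul_of_nonneg_right a1 (by positivity)
        _ = 2 * B ^ 4 * (T ^ 2 * x ^ 2) := by ring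
        _ ≤ 2 * B ^ 4 * (2 * (B * X) ^ 2) := mul_le_mul_of_nonneg_left a2 (by positivity)
        _ = _ := by ring
    have a4 := le_of_mul_le_mul_left a3 hX2
    exact abs_le_of_sq_le_sq a4 (by positivity)


/-- the integral over the lengths up to `2 B X` for fixed shape -/
private theorem q6_T {ε lam B L : ℝ} (hε : 0 < ε) (hl : 1 ≤ lam) (_hB : 1 ≤ B) (hL : 1 ≤ L) : ∃ C : ℝ, 1 ≤ C ∧
    ∀ (X H : ℝ) (A : Finset (ℤ × ℤ)) (x y : ℝ), 1 ≤ X → 1 ≤ H → Cone H lam A → |x| ≤ L → |y| ≤ L → 1 ≤ L * |y| →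
      ∫⁻ T in Ioc 0 (2 * B * X), ENNReal.ofReal (m6 A (fun k => 1 * ee (T * (Pool.Agent.Helper78.CG.ff 0 (q6q x y) k)))) ≤
        ENNReal.ofReal (C * X * H ^ ε * (A.card : ℝ) * ((q6P A (C * (1 + H ^ 2 / √(H * X)))).card : ℝ) ^ 2) := by
  classical
  obtain ⟨c, C₀, hc, hcrv⟩ := q6_crv hL
  obtain ⟨C₁, hC₁, hsix⟩ := q6_six (ε := ε) (c₁ := c) (C₀ := C₀) (lam := lam) hε hc hl
  obtain ⟨c₀, hc₀, hwt⟩ := Pool.Agent.Helper22.AC.exists_wt
  obtain ⟨N, hN⟩ : ∃ N : ℕ, N = ⌊2 * B⌋₊ + 1 := ⟨_, rfl⟩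
  obtain ⟨C, hC⟩ : ∃ C : ℝ, C = C₁ * (1 + N / c₀) := ⟨_, rfl⟩
  have hN0 : (0 : ℝ) ≤ N := Nat.cast_nonneg _
  have hCC : C₁ ≤ C := by
    rw [hC]
    have : 0 ≤ (N : ℝ) / c₀ := by positivity
    nlinarith
  refine ⟨C, hC₁.trans hCC, ?_⟩
  intro X H A x y hX hH hA hx hy hy1
  have hX0 : 0 < X := by linarith
  have hH0 : 0 < H := by linarith
  have hAu : ∀ k ∈ A, H / lam ≤ uu 0 k ∧ uu 0 k ≤ lam * H ∧ |tt 0 k| ≤ 2 := by
    intro k hk
    obtain ⟨h1, h2, h3⟩ := hA k hk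
    have hk0 : 0 < (k.1 : ℝ) := lt_of_lt_of_le (by positivity) h1
    have hu : uu 0 k = k.1 := by
      unfold uu
      ring
    refine ⟨by rw [hu]; exact h1, by rw [hu]; exact h2, ?_⟩
    unfold tt
    rw [hu, abs_div, abs_of_pos hk0, div_le_iff₀ hk0]
    exact h3
  obtain ⟨Q, hQ⟩ : ∃ Q : ℝ, Q = C₁ * H ^ ε * (A.card : ℝ) * ((q6P A (C₁ * (1 + H ^ 2 / √(H * X)))).card : ℝ) ^ 2 := ⟨_, rfl⟩
  have hQ0 : 0 ≤ Q := by rw [hQ]; positivity
  have hcov : Ioc 0 (2 * B * X) ⊆ ⋃ i : Fin N, Icc ((i : ℕ) * X) ((i : ℕ) * X + X) := by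
    intro T hT
    rw [mem_iUnion]
    have h1 : 0 ≤ T / X := div_nonneg hT.1.le hX0.le
    have h2 : T / X ≤ 2 * B := by
      rw [div_le_iff₀ hX0]
      exact hT.2
    have h3 : ⌊T / X⌋₊ < N := by
      rw [hN]
      exact Nat.lt_succ_of_le (Nat.floor_le_floor h2)
    refine ⟨⟨⌊T / X⌋₊, h3⟩, ?_, ?_⟩
    · have := Nat.floor_le h1
      rw [le_div_iff₀ hX0] at this
      exact this
    · have := (Nat.lt_floor_add_one (T / X)).le
      rw [div_le_iff₀ hX0] at this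
      simp only
      linarith
  have hone : ∀ i : Fin N, ∫⁻ T in Icc ((i : ℕ) * X) ((i : ℕ) * X + X),
      ENNReal.ofReal (m6 A (fun k => 1 * ee (T * (Pool.Agent.Helper78.CG.ff 0 (q6q x y) k)))) ≤ ENNReal.ofReal (X / c₀ * Q) := by
    intro i
    obtain ⟨v, hv, hv1⟩ := hwt X hX0 ((i : ℕ) * X)
    refine q6_line hc₀ hX0 hv hv1 A (a := fun _ => (1 : ℂ)) (fun _ => by rw [norm_one]) (Pool.Agent.Helper78.CG.ff 0 (q6q x y)) ?_
    rw [hQ]
    exact hsix (q6q x y) 0 2 H X v (fun _ => 1) A (hcrv x y hx hy hy1) (fun _ => by rw [norm_one]) two_pos (by norm_num) hH hX0 hv hAu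
  calc ∫⁻ T in Ioc 0 (2 * B * X), ENNReal.ofReal (m6 A (fun k => 1 * ee (T * (Pool.Agent.Helper78.CG.ff 0 (q6q x y) k))))
      ≤ ∫⁻ T in ⋃ i : Fin N, Icc ((i : ℕ) * X) ((i : ℕ) * X + X),
          ENNReal.ofReal (m6 A (fun k => 1 * ee (T * (Pool.Agent.Helper78.CG.ff 0 (q6q x y) k)))) := lintegral_mono_set hcov
    _ ≤ ∑' i : Fin N, ∫⁻ T in Icc ((i : ℕ) * X) ((i : ℕ) * X + X),
          ENNReal.ofReal (m6 A (fun k => 1 * ee (T * (Pool.Agent.Helper78.CG.ff 0 (q6q x y) k)))) := lintegral_iUnion_le _ _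
    _ ≤ ∑' _ : Fin N, ENNReal.ofReal (X / c₀ * Q) := ENNReal.tsum_le_tsum hone
    _ = ENNReal.ofReal (N * (X / c₀ * Q)) := by
        rw [tsum_fintype, Finset.sum_const, Finset.card_univ, Fintype.card_fin, nsmul_eq_mul, ENNReal.ofReal_mul hN0,
          ENNReal.ofReal_natCast]
    _ ≤ _ := by
        refine ENNReal.ofReal_le_ofReal ?_
        have h1 : ((q6P A (C₁ * (1 + H ^ 2 / √(H * X)))).card : ℝ) ≤ ((q6P A (C * (1 + H ^ 2 / √(H * X)))).card : ℝ) :=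
          q6P_mono (mul_le_mul_of_nonneg_right hCC (by positivity))
        have h2 : C₁ * (N / c₀) ≤ C := by
          rw [hC]
          nlinarith
        rw [hQ]
        calc (N : ℝ) * (X / c₀ * (C₁ * H ^ ε * (A.card : ℝ) * ((q6P A (C₁ * (1 + H ^ 2 / √(H * X)))).card : ℝ) ^ 2))
            = (C₁ * (N / c₀)) * (X * H ^ ε * (A.card : ℝ)) * ((q6P A (C₁ * (1 + H ^ 2 / √(H * X)))).card : ℝ) ^ 2 := by ring
          _ ≤ C * (X * H ^ ε * (A.card : ℝ)) * ((q6P A (C * (1 + H ^ 2 / √(H * X)))).card : ℝ) ^ 2 := by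
              have hC0 : 0 ≤ C := by linarith
              gcongr
          _ = _ := by ring

open Classical in
theorem m6_frames {ε lam B : ℝ} (hε : 0 < ε) (hl : 1 ≤ lam) (hB : 1 ≤ B) : ∃ C : ℝ, 1 ≤ C ∧ ∀ (X H : ℝ) (A : Finset (ℤ × ℤ)), 1 ≤ X → 1 ≤ H → Cone H lam A →
    ∫⁻ f in UB B X, ENNReal.ofReal (m6 A (fun k => ee (nm (vf f k)))) ≤ ENNReal.ofReal (C * X ^ 4 * H ^ ε * (A.card : ℝ) *
      (((A ×ˢ A).filter (fun z => |((dd z.1 z.2 : ℤ) : ℝ)| ≤ C * (1 + H ^ 2 / √(H * X)))).card : ℝ) ^ 2) := by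
  obtain ⟨L, hLd⟩ : ∃ L : ℝ, L = 2 * B ^ 3 := ⟨_, rfl⟩
  have hL : 1 ≤ L := by
    rw [hLd]
    have : 1 ≤ B ^ 3 := one_le_pow₀ hB
    linarith
  have hB0 : 0 < B := by linarith
  have hL0 : 0 < L := by linarith
  obtain ⟨C₁, hC₁, hT⟩ := q6_T (ε := ε) (lam := lam) (B := B) (L := L) hε hl hB hL
  obtain ⟨K, hK⟩ : ∃ K : ℝ, K = 2 * π * (2 * L * (2 * L * (8 * B ^ 3))) := ⟨_, rfl⟩
  have hK1 : 1 ≤ K := by
    have h1 : 1 ≤ B ^ 3 := one_le_pow₀ hB
    have h2 : 3 < π := pi_gt_three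
    have h3 : 1 ≤ L * (L * B ^ 3) := one_le_mul_of_one_le_of_one_le hL (one_le_mul_of_one_le_of_one_le hL h1)
    have h4 : K = 64 * π * (L * (L * B ^ 3)) := by rw [hK]; ring
    rw [h4]
    nlinarith
  have hCK : C₁ ≤ K * C₁ := by nlinarith
  refine ⟨K * C₁, hC₁.trans hCK, ?_⟩
  intro X H A hX hH hA
  change _ ≤ ENNReal.ofReal (K * C₁ * X ^ 4 * H ^ ε * (A.card : ℝ) * ((q6P A (K * C₁ * (1 + H ^ 2 / √(H * X)))).card : ℝ) ^ 2)
  have hX0 : 0 < X := by linarith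
  have hH0 : 0 < H := by linarith
  obtain ⟨Q, hQ⟩ : ∃ Q : ℝ, Q = C₁ * X * H ^ ε * (A.card : ℝ) * ((q6P A (C₁ * (1 + H ^ 2 / √(H * X)))).card : ℝ) ^ 2 := ⟨_, rfl⟩
  have hQ0 : 0 ≤ Q := by rw [hQ]; positivity
  obtain ⟨F, hF⟩ : ∃ F : Fr → ENNReal, F = fun f => ENNReal.ofReal (m6 A (fun k => ee (nm (vf f k)))) := ⟨_, rfl⟩
  have hFm : Measurable F := by
    rw [hF]
    refine ENNReal.measurable_ofReal.comp (Continuous.measurable ?_)
    refine q6_cont A (fun (f : Fr) k => ee (nm (vf f k))) fun k _ => ee_cont.comp ?_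
    unfold nm vf
    fun_prop
  have hIm : Measurable ((UB B X).indicator F) := hFm.indicator (q6_UB B X)
  have e0 : ∫⁻ f in UB B X, ENNReal.ofReal (m6 A (fun k => ee (nm (vf f k)))) = ∫⁻ f, (UB B X).indicator F f := by
    rw [lintegral_indicator (q6_UB B X), hF]
  rw [e0, Pool.Agent.Helper60.LT.int_fr hIm]
  -- the integrand in coordinates
  obtain ⟨E, hE⟩ : ∃ E : ℝ → ℝ → ℝ → ENNReal, ∀ y T x, E y T x = ENNReal.ofReal (m6 A (fun k => 1 * ee (T * (Pool.Agent.Helper78.CG.ff 0 (q6q x y) k)))) :=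
    ⟨_, fun _ _ _ => rfl⟩
  have hEm : ∀ y, Measurable (Function.uncurry (E y)) := by
    intro y
    have h1 : Function.uncurry (E y) = fun p : ℝ × ℝ => ENNReal.ofReal (m6 A (fun k => 1 * ee (p.1 * (Pool.Agent.Helper78.CG.ff 0 (q6q p.2 y) k)))) := by
      funext p
      exact hE y p.1 p.2
    rw [h1]
    refine ENNReal.measurable_ofReal.comp (Continuous.measurable ?_)
    refine q6_cont A (fun (p : ℝ × ℝ) k => 1 * ee (p.1 * (Pool.Agent.Helper78.CG.ff 0 (q6q p.2 y) k))) fun k _ =>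
      continuous_const.mul (ee_cont.comp ?_)
    unfold Pool.Agent.Helper78.CG.ff q6q
    fun_prop
  have hFE : ∀ θ y T x : ℝ, 0 < T → F (fr θ y T x) = E y T x := by
    intro θ y T x hT0
    rw [hF, hE]
    simp only
    congr 1
    refine Pool.Agent.Helper92.GC.m6_congr fun k hk => ?_
    have hk0 : 0 < (k.1 : ℝ) := lt_of_lt_of_le (by positivity) (hA k hk).1
    rw [q6_nm hT0 hk0, one_mul]
    rfl
  have hin : ∀ θ y : ℝ, ∫⁻ T in Ioi (0 : ℝ), ∫⁻ x, ENNReal.ofReal (T ^ 3) * (UB B X).indicator F (fr θ y T x) ≤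
      (Icc (-L) L).indicator (fun _ => ENNReal.ofReal (2 * L * ((2 * B * X) ^ 3 * Q))) y := by
    intro θ y
    by_cases hy : |y| ≤ L ∧ 1 ≤ L * |y|
    · have hyI : y ∈ Icc (-L) L := abs_le.1 hy.1
      rw [indicator_of_mem hyI]
      have s1 : ∫⁻ T in Ioi (0 : ℝ), ∫⁻ x, ENNReal.ofReal (T ^ 3) * (UB B X).indicator F (fr θ y T x) ≤
          ∫⁻ T in Ioc (0 : ℝ) (2 * B * X), ∫⁻ x in Icc (-L) L, ENNReal.ofReal ((2 * B * X) ^ 3) * E y T x := by
        rw [← lintegral_indicator measurableSet_Ioi, ← lintegral_indicator measurableSet_Ioc]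
        refine lintegral_mono fun T => ?_
        by_cases hT0 : T ∈ Ioi (0 : ℝ)
        · rw [indicator_of_mem hT0]
          have hT0' : 0 < T := hT0
          by_cases hT1 : T ≤ 2 * B * X
          · have hT2 : T ∈ Ioc (0 : ℝ) (2 * B * X) := ⟨hT0', hT1⟩
            rw [indicator_of_mem hT2, ← lintegral_indicator measurableSet_Icc]
            refine lintegral_mono fun x => ?_
            by_cases hf : fr θ y T x ∈ UB B X
            · obtain ⟨-, hx, -, -⟩ := q6_UB_fr hB hX0 hT0' hf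
              rw [← hLd] at hx
              have hxI : x ∈ Icc (-L) L := abs_le.1 hx
              rw [indicator_of_mem hf, indicator_of_mem hxI, hFE θ y T x hT0']
              refine mul_le_mul_left ?_ _
              exact ENNReal.ofReal_le_ofReal (pow_le_pow_left₀ hT0'.le hT1 3)
            · rw [indicator_of_notMem hf, mul_zero]
              exact zero_le
          · have h1 : ∀ x, ENNReal.ofReal (T ^ 3) * (UB B X).indicator F (fr θ y T x) = 0 := by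
              intro x
              have hf : fr θ y T x ∉ UB B X := fun hf => hT1 (q6_UB_fr hB hX0 hT0' hf).1
              rw [indicator_of_notMem hf, mul_zero]
            simp only [h1, lintegral_zero]
            exact zero_le
        · rw [indicator_of_notMem hT0]
          exact zero_le
      have s2 : ∫⁻ T in Ioc (0 : ℝ) (2 * B * X), ∫⁻ x in Icc (-L) L, ENNReal.ofReal ((2 * B * X) ^ 3) * E y T x =
          ∫⁻ x in Icc (-L) L, ∫⁻ T in Ioc (0 : ℝ) (2 * B * X), ENNReal.ofReal ((2 * B * X) ^ 3) * E y T x := by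
        refine lintegral_lintegral_swap ?_
        exact ((measurable_const.mul (hEm y))).aemeasurable
      rw [s2] at s1
      refine s1.trans ?_
      have s3 : ∀ x ∈ Icc (-L) L, ∫⁻ T in Ioc (0 : ℝ) (2 * B * X), ENNReal.ofReal ((2 * B * X) ^ 3) * E y T x ≤
          ENNReal.ofReal ((2 * B * X) ^ 3 * Q) := by
        intro x hx
        have hm : Measurable (fun T => E y T x) := (hEm y).comp (measurable_id.prodMk measurable_const)
        rw [lintegral_const_mul _ hm, ENNReal.ofReal_mul (by positivity)]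
        refine mul_le_mul_right ?_ _
        rw [hQ]
        simp only [hE]
        exact hT X H A x y hX hH hA (abs_le.2 hx) hy.1 hy.2
      refine (setLIntegral_mono' measurableSet_Icc s3).trans ?_
      rw [setLIntegral_const, Real.volume_Icc, mul_comm, ← ENNReal.ofReal_mul (by linarith)]
      refine ENNReal.ofReal_le_ofReal (le_of_eq ?_)
      ring
    · have h1 : ∀ T ∈ Ioi (0 : ℝ), ∫⁻ x, ENNReal.ofReal (T ^ 3) * (UB B X).indicator F (fr θ y T x) = 0 := by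
        intro T hT0
        have h2 : ∀ x, ENNReal.ofReal (T ^ 3) * (UB B X).indicator F (fr θ y T x) = 0 := by
          intro x
          have hf : fr θ y T x ∉ UB B X := by
            intro hf
            obtain ⟨-, -, g1, g2⟩ := q6_UB_fr hB hX0 hT0 hf
            rw [← hLd] at g1 g2
            exact hy ⟨g1, g2⟩
          rw [indicator_of_notMem hf, mul_zero]
        simp only [h2, lintegral_zero]
      rw [setLIntegral_congr_fun measurableSet_Ioi h1, lintegral_zero]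
      exact zero_le
  calc ∫⁻ θ in Ioc (-π) π, ∫⁻ y, ∫⁻ T in Ioi (0 : ℝ), ∫⁻ x, ENNReal.ofReal (T ^ 3) * (UB B X).indicator F (fr θ y T x)
      ≤ ∫⁻ _ in Ioc (-π) π, ENNReal.ofReal (2 * L * (2 * L * ((2 * B * X) ^ 3 * Q))) := by
        refine lintegral_mono fun θ => ?_
        refine (lintegral_mono (hin θ)).trans ?_
        rw [lintegral_indicator measurableSet_Icc, setLIntegral_const, Real.volume_Icc, mul_comm, ← ENNReal.ofReal_mul (by linarith)]
        refine ENNReal.ofReal_le_ofReal (le_of_eq ?_)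
        ring
    _ = ENNReal.ofReal (K * (X ^ 3 * Q)) := by
        rw [setLIntegral_const, Real.volume_Ioc, mul_comm, ← ENNReal.ofReal_mul (by linarith [pi_pos]), hK]
        congr 1
        ring
    _ ≤ _ := by
        refine ENNReal.ofReal_le_ofReal ?_
        have h1 : ((q6P A (C₁ * (1 + H ^ 2 / √(H * X)))).card : ℝ) ≤ ((q6P A (K * C₁ * (1 + H ^ 2 / √(H * X)))).card : ℝ) :=
          q6P_mono (mul_le_mul_of_nonneg_right hCK (by positivity))
        rw [hQ]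
        calc K * (X ^ 3 * (C₁ * X * H ^ ε * (A.card : ℝ) * ((q6P A (C₁ * (1 + H ^ 2 / √(H * X)))).card : ℝ) ^ 2))
            = K * C₁ * X ^ 4 * H ^ ε * (A.card : ℝ) * ((q6P A (C₁ * (1 + H ^ 2 / √(H * X)))).card : ℝ) ^ 2 := by ring
          _ ≤ _ := by
            have hK0 : 0 < K := by linarith
            have hC0 : 0 < C₁ := by linarith
            gcongr

end Pool.Agent.Helper60.QL
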